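import Mathlib
import Pool.Agent.Helper292.ForceCH

open Set Topology Filter Metric

namespace Pool.Agent.Results.MP_da5f1d_gt.Independent

/-- The statement of Q1: every set of reals which is hereditarily concentrated on countable sets
is a continuous image of a set of reals all of whose relatively nowhere dense subsets are
countable. -/
def BrownCox : Prop :=
  ∀ X : Set ℝ,
    (∀ Y : Set ℝ, Y ⊆ X →
      ∃ C : Set ℝ, C ⊆ Y ∧ C.Countable ∧
        ∀ U : Set ℝ, IsOpen U → C ⊆ U → (Y \ U).Countable) →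
    ∃ Z : Set ℝ,
      (∀ Y : Set Z, IsNowhereDense Y → Y.Countable) ∧
      ∃ f : ℝ → ℝ, ContinuousOn f Z ∧ f '' Z = X

open Pool.Agent.Helper292.ForceCH (Om countable_Iio exists_bound)

/-! ### The next perfect set -/

/-- A condition: finitely many points of the set, and finitely many excluded closed balls. -/
structure Cond where
  s : Finset ℝ
  e : Finset (ℝ × ℝ)
  ok : ∀ x ∈ s, ∀ p ∈ e, x ∉ closedBall p.1 p.2

instance : Preorder Cond where
  le p q := p.s ⊆ q.s ∧ p.e ⊆ q.e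
  le_refl p := ⟨fun _ h => h, fun _ h => h⟩
  le_trans p q r h h' := ⟨fun _ hx => h'.1 (h.1 hx), fun _ hx => h'.2 (h.2 hx)⟩

lemma allowed (p : Cond) : ∃ O : Set ℝ, IsOpen O ∧ (∀ x ∈ p.s, x ∈ O) ∧
    ∀ x ∈ O, ∀ q ∈ p.e, x ∉ closedBall q.1 q.2 := by
  refine ⟨⋂ q ∈ p.e, (closedBall q.1 q.2)ᶜ, ?_, ?_, ?_⟩
  · exact isOpen_biInter_finset fun q _ => isClosed_closedBall.isOpen_compl
  · intro x hx
    simp only [mem_iInter]
    intro q hq
    exact p.ok x hx q hq
  · intro x hx q hq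
    simp only [mem_iInter] at hx
    exact hx q hq

lemma cof1 (D : Set ℝ) (m : ℕ) : IsCofinal {p : Cond | ∀ x ∈ p.s, x ∈ closure D →
    ∃ d ∈ p.s, d ∈ D ∧ dist d x < 1 / ((m : ℝ) + 1)} := by
  classical
  intro p
  have hm : (0 : ℝ) < 1 / ((m : ℝ) + 1) := by positivity
  obtain ⟨O, hO, hsO, hOe⟩ := allowed p
  have h1 : ∀ x : ℝ, ∃ d : ℝ, (x ∈ p.s → d ∈ O) ∧
      (x ∈ p.s → x ∈ closure D → d ∈ D ∧ dist d x < 1 / ((m : ℝ) + 1)) ∧
      (x ∉ closure D → d = x) := by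
    intro x
    by_cases hx : x ∈ p.s
    · by_cases hxD : x ∈ closure D
      · have h2 : O ∩ ball x (1 / ((m : ℝ) + 1)) ∈ 𝓝 x :=
          Filter.inter_mem (hO.mem_nhds (hsO x hx)) (ball_mem_nhds x hm)
        obtain ⟨d, ⟨hd1, hd2⟩, hd3⟩ := mem_closure_iff_nhds.1 hxD _ h2
        exact ⟨d, fun _ => hd1, fun _ _ => ⟨hd3, hd2⟩, fun h => absurd hxD h⟩
      · exact ⟨x, fun _ => hsO x hx, fun _ h => absurd h hxD, fun _ => rfl⟩
    · exact ⟨x, fun h => absurd h hx, fun h => absurd h hx, fun _ => rfl⟩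
  choose g hg1 hg2 hg3 using h1
  refine ⟨⟨p.s ∪ p.s.image g, p.e, ?_⟩, ?_, ?_⟩
  · intro x hx q hq
    rcases Finset.mem_union.1 hx with hx | hx
    · exact p.ok x hx q hq
    · obtain ⟨y, hy, rfl⟩ := Finset.mem_image.1 hx
      exact hOe _ (hg1 y hy) q hq
  · intro x hx hxD
    have key : ∀ x ∈ p.s, x ∈ closure D → ∃ d ∈ p.s ∪ p.s.image g, d ∈ D ∧
        dist d x < 1 / ((m : ℝ) + 1) := fun x hx hxD =>
      ⟨g x, Finset.mem_union_right _ (Finset.mem_image_of_mem g hx), hg2 x hx hxD⟩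
    rcases Finset.mem_union.1 hx with hx | hx
    · exact key x hx hxD
    · obtain ⟨y, hy, rfl⟩ := Finset.mem_image.1 hx
      by_cases hyD : y ∈ closure D
      · refine ⟨g y, Finset.mem_union_right _ (Finset.mem_image_of_mem g hy), (hg2 y hy hyD).1, ?_⟩
        rw [dist_self]; exact hm
      · rw [hg3 y hyD] at hxD
        exact absurd hxD hyD
  · exact ⟨Finset.subset_union_left, fun _ h => h⟩

lemma cof2 (H : Set ℝ) (hc : IsClosed H) (hi : interior H = ∅) (m : ℕ) :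
    IsCofinal {p : Cond | ∀ x ∈ p.s, ∃ d ∈ p.s, d ≠ x ∧ dist d x < 1 / ((m : ℝ) + 1) ∧ d ∉ H} := by
  classical
  intro p
  have hm : (0 : ℝ) < 1 / ((m : ℝ) + 1) := by positivity
  obtain ⟨O, hO, hsO, hOe⟩ := allowed p
  have h1 : ∀ x : ℝ, ∃ d : ℝ × ℝ, x ∈ p.s → d.1 ∈ O ∧ d.2 ∈ O ∧ d.1 ≠ d.2 ∧
      d.1 ∉ H ∧ d.2 ∉ H ∧ dist d.1 x < 1 / ((m : ℝ) + 1) / 2 ∧
      dist d.2 x < 1 / ((m : ℝ) + 1) / 2 := by
    intro x
    by_cases hx : x ∈ p.s
    · have h2 : IsOpen (O ∩ ball x (1 / ((m : ℝ) + 1) / 2)) := hO.inter isOpen_ball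
      have h3 : ¬ (O ∩ ball x (1 / ((m : ℝ) + 1) / 2)) ⊆ H := by
        intro h
        have := interior_maximal h h2
        rw [hi] at this
        exact this ⟨hsO x hx, mem_ball_self (by positivity)⟩
      obtain ⟨y, hy, hyH⟩ := not_subset.1 h3
      have h4 : (O ∩ ball x (1 / ((m : ℝ) + 1) / 2)) ∩ Hᶜ ∈ 𝓝 y :=
        (h2.inter hc.isOpen_compl).mem_nhds ⟨hy, hyH⟩
      obtain ⟨a, ha, b, hb, hab⟩ := (infinite_of_mem_nhds y h4).nontrivial
      exact ⟨(a, b), fun _ => ⟨ha.1.1, hb.1.1, hab, ha.2, hb.2, ha.1.2, hb.1.2⟩⟩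
    · exact ⟨(x, x), fun h => absurd h hx⟩
  choose g hg using h1
  refine ⟨⟨p.s ∪ (p.s.image (fun x => (g x).1) ∪ p.s.image (fun x => (g x).2)), p.e, ?_⟩, ?_, ?_⟩
  · intro x hx q hq
    rcases Finset.mem_union.1 hx with hx | hx
    · exact p.ok x hx q hq
    · rcases Finset.mem_union.1 hx with hx | hx
      · obtain ⟨y, hy, rfl⟩ := Finset.mem_image.1 hx
        exact hOe _ (hg y hy).1 q hq
      · obtain ⟨y, hy, rfl⟩ := Finset.mem_image.1 hx
        exact hOe _ (hg y hy).2.1 q hq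
  · have m1 : ∀ y ∈ p.s, (g y).1 ∈ p.s ∪ (p.s.image (fun x => (g x).1) ∪
        p.s.image (fun x => (g x).2)) := fun y hy =>
      Finset.mem_union_right _ (Finset.mem_union_left _
        (Finset.mem_image_of_mem (fun x => (g x).1) hy))
    have m2 : ∀ y ∈ p.s, (g y).2 ∈ p.s ∪ (p.s.image (fun x => (g x).1) ∪
        p.s.image (fun x => (g x).2)) := fun y hy =>
      Finset.mem_union_right _ (Finset.mem_union_right _
        (Finset.mem_image_of_mem (fun x => (g x).2) hy))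
    intro x hx
    rcases Finset.mem_union.1 hx with hx | hx
    · obtain ⟨_, _, h3, h4, h5, h6, h7⟩ := hg x hx
      by_cases h : (g x).1 = x
      · exact ⟨(g x).2, m2 x hx, fun h' => h3 (h.trans h'.symm), by linarith, h5⟩
      · exact ⟨(g x).1, m1 x hx, h, by linarith, h4⟩
    · rcases Finset.mem_union.1 hx with hx | hx
      · obtain ⟨y, hy, rfl⟩ := Finset.mem_image.1 hx
        obtain ⟨_, _, h3, h4, h5, h6, h7⟩ := hg y hy
        refine ⟨(g y).2, m2 y hy, h3.symm, ?_, h5⟩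
        have := dist_triangle_right (g y).2 (g y).1 y
        linarith
      · obtain ⟨y, hy, rfl⟩ := Finset.mem_image.1 hx
        obtain ⟨_, _, h3, h4, h5, h6, h7⟩ := hg y hy
        refine ⟨(g y).1, m1 y hy, h3, ?_, h4⟩
        have := dist_triangle_right (g y).1 (g y).2 y
        linarith
  · exact ⟨Finset.subset_union_left, fun _ h => h⟩

lemma cof3 (G : Set ℝ) (hG : Preperfect G) (a b : ℝ) :
    IsCofinal {p : Cond | (Ioo a b ∩ G).Nonempty → ∃ y ∈ Ioo a b ∩ G, ∃ r : ℝ, 0 < r ∧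
      (y, r) ∈ p.e} := by
  classical
  intro p
  by_cases h : (Ioo a b ∩ G).Nonempty
  · obtain ⟨y0, hy0, hy0G⟩ := h
    have h1 : Ioo a b ∩ ((↑p.s : Set ℝ) \ {y0})ᶜ ∈ 𝓝 y0 := by
      refine Filter.inter_mem (isOpen_Ioo.mem_nhds hy0) ?_
      refine IsOpen.mem_nhds ?_ (by simp)
      exact ((p.s.finite_toSet.subset sdiff_subset).isClosed).isOpen_compl
    obtain ⟨y, ⟨⟨hy1, hy2⟩, hyG⟩, hne⟩ := accPt_iff_nhds.1 (hG y0 hy0G) _ h1
    have hys : y ∉ p.s := by
      intro h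
      exact hy2 ⟨h, hne⟩
    have h2 : ((↑p.s : Set ℝ))ᶜ ∈ 𝓝 y := p.s.finite_toSet.isClosed.isOpen_compl.mem_nhds hys
    obtain ⟨r, hr, hr'⟩ := Metric.nhds_basis_closedBall.mem_iff.1 h2
    refine ⟨⟨p.s, insert (y, r) p.e, ?_⟩, ?_, ?_⟩
    · intro x hx q hq
      rcases Finset.mem_insert.1 hq with rfl | hq
      · intro hxy
        exact hr' hxy hx
      · exact p.ok x hx q hq
    · intro _
      exact ⟨y, ⟨hy1, hyG⟩, r, hr, Finset.mem_insert_self _ _⟩
    · exact ⟨fun _ h => h, fun _ h => Finset.mem_insert_of_mem h⟩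
  · exact ⟨p, fun h' => absurd h' h, le_rfl⟩

lemma exists_next {ι κ μ : Type} [Countable ι] [Countable κ] [Countable μ] [Nonempty κ]
    (G : ι → Set ℝ) (hG : ∀ i, Preperfect (G i))
    (H : κ → Set ℝ) (hH : ∀ i, IsClosed (H i)) (hH' : ∀ i, interior (H i) = ∅)
    (D : μ → Set ℝ) :
    ∃ F : Set ℝ, IsClosed F ∧ F.Nonempty ∧ Preperfect F ∧
      (∀ i, ∀ V : Set ℝ, IsOpen V → (V ∩ G i).Nonempty → ¬ (V ∩ G i ⊆ F)) ∧
      (∀ i, ∀ V : Set ℝ, IsOpen V → (V ∩ F).Nonempty → ¬ (V ∩ F ⊆ H i)) ∧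
      (∀ i, ∀ V : Set ℝ, IsOpen V → (V ∩ F).Nonempty → V ∩ F ⊆ closure (D i) →
        (V ∩ F ∩ D i).Nonempty) := by
  classical
  let T : Type := (μ × ℕ × ℕ) ⊕ (κ × ℕ × ℕ) ⊕ (ι × ℚ × ℚ)
  have : Encodable T := Encodable.ofCountable T
  let 𝒟 : T → Order.Cofinal Cond := fun t => match t with
    | Sum.inl (i, m, _) => ⟨_, cof1 (D i) m⟩
    | Sum.inr (Sum.inl (i, m, _)) => ⟨_, cof2 (H i) (hH i) (hH' i) m⟩
    | Sum.inr (Sum.inr (i, a, b)) => ⟨_, cof3 (G i) (hG i) a b⟩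
  let p0 : Cond := ⟨{0}, ∅, by simp⟩
  let c : ℕ → Cond := Order.sequenceOfCofinals p0 𝒟
  have hmono : Monotone c := Order.sequenceOfCofinals.monotone p0 𝒟
  have hmem : ∀ t : T, c (Encodable.encode t + 1) ∈ 𝒟 t := fun t =>
    Order.sequenceOfCofinals.encode_mem p0 𝒟 t
  let A : Set ℝ := ⋃ n, (↑(c n).s : Set ℝ)
  have hA : ∀ {x : ℝ}, x ∈ A ↔ ∃ n, x ∈ (c n).s := by
    intro x
    simp [A]
  -- infinitely often
  have io : ∀ (f : ℕ → T), Function.Injective f → ∀ n, ∃ k, n ≤ Encodable.encode (f k) + 1 := by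
    intro f hf n
    have h1 : Function.Injective fun k => Encodable.encode (f k) :=
      Encodable.encode_injective.comp hf
    have h2 : Tendsto (fun k => Encodable.encode (f k)) atTop atTop := by
      have := h1.tendsto_cofinite
      rwa [Nat.cofinite_eq_atTop] at this
    obtain ⟨k, hk⟩ := (h2.eventually_ge_atTop n).exists
    exact ⟨k, by omega⟩
  have hD : ∀ i (m : ℕ), ∀ x ∈ A, x ∈ closure (D i) → ∃ d ∈ A, d ∈ D i ∧
      dist d x < 1 / ((m : ℝ) + 1) := by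
    intro i m x hx hxD
    obtain ⟨n, hn⟩ := hA.1 hx
    obtain ⟨k, hk⟩ := io (fun k => Sum.inl (i, m, k)) (fun a b h => by
      have h := Sum.inl_injective h
      simpa using h) n
    have h1 := hmem (Sum.inl (i, m, k))
    obtain ⟨d, hd1, hd2⟩ := h1 x ((hmono hk).1 hn) hxD
    exact ⟨d, hA.2 ⟨_, hd1⟩, hd2⟩
  have hHA : ∀ i (m : ℕ), ∀ x ∈ A, ∃ d ∈ A, d ≠ x ∧ dist d x < 1 / ((m : ℝ) + 1) ∧ d ∉ H i := by
    intro i m x hx
    obtain ⟨n, hn⟩ := hA.1 hx
    obtain ⟨k, hk⟩ := io (fun k => Sum.inr (Sum.inl (i, m, k))) (fun a b h => by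
      have h := Sum.inl_injective (Sum.inr_injective h)
      simpa using h) n
    have h1 := hmem (Sum.inr (Sum.inl (i, m, k)))
    obtain ⟨d, hd1, hd2⟩ := h1 x ((hmono hk).1 hn)
    exact ⟨d, hA.2 ⟨_, hd1⟩, hd2⟩
  have hGA : ∀ i (a b : ℚ), (Ioo (a : ℝ) b ∩ G i).Nonempty →
      ∃ y ∈ Ioo (a : ℝ) b ∩ G i, y ∉ closure A := by
    intro i a b h
    have h1 := hmem (Sum.inr (Sum.inr (i, a, b)))
    obtain ⟨y, hy, r, hr, hr'⟩ := h1 h
    refine ⟨y, hy, ?_⟩
    rw [mem_closure_iff_nhds]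
    push Not
    refine ⟨closedBall y r, closedBall_mem_nhds y hr, ?_⟩
    rw [← Set.not_nonempty_iff_eq_empty]
    rintro ⟨x, hx, hxA⟩
    obtain ⟨n, hn⟩ := hA.1 hxA
    set N := Encodable.encode (Sum.inr (Sum.inr (i, a, b)) : T) + 1
    have h2 := (hmono (le_max_left n N)).1 hn
    have h3 := (hmono (le_max_right n N)).2 hr'
    exact (c (max n N)).ok x h2 _ h3 hx
  have ball_in : ∀ (V : Set ℝ), IsOpen V → ∀ x ∈ V, ∃ m : ℕ, ∀ d : ℝ,
      dist d x < 1 / ((m : ℝ) + 1) → d ∈ V := by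
    intro V hV x hx
    obtain ⟨ε, hε, hε'⟩ := Metric.isOpen_iff.1 hV x hx
    obtain ⟨m, hm⟩ := exists_nat_one_div_lt hε
    exact ⟨m, fun d hd => hε' (mem_ball.2 (hd.trans hm))⟩
  have meetA : ∀ V : Set ℝ, IsOpen V → (V ∩ closure A).Nonempty → ∃ x ∈ A, x ∈ V := by
    rintro V hV ⟨x, hx, hx'⟩
    obtain ⟨y, hy, hy'⟩ := mem_closure_iff.1 hx' V hV hx
    exact ⟨y, hy', hy⟩
  refine ⟨closure A, isClosed_closure, ?_, ?_, ?_, ?_, ?_⟩
  · exact ⟨0, subset_closure (hA.2 ⟨0, by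
      have : (0 : ℝ) ∈ p0.s := by simp [p0]
      exact this⟩)⟩
  · have hpp : Preperfect A := by
      intro x hx
      rw [accPt_iff_nhds]
      intro U hU
      obtain ⟨V, hVU, hV, hxV⟩ := _root_.mem_nhds_iff.1 hU
      obtain ⟨m, hm⟩ := ball_in V hV x hxV
      obtain ⟨d, hd, hne, hdist, _⟩ := hHA (Classical.arbitrary κ) m x hx
      exact ⟨d, ⟨hVU (hm d hdist), hd⟩, hne⟩
    exact hpp.perfect_closure.acc
  · intro i V hV h hsub
    obtain ⟨y0, hy0, hy0G⟩ := h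
    obtain ⟨ε, hε, hε'⟩ := Metric.isOpen_iff.1 hV y0 hy0
    obtain ⟨a, ha1, ha2⟩ := exists_rat_btwn (show y0 - ε < y0 by linarith)
    obtain ⟨b, hb1, hb2⟩ := exists_rat_btwn (show y0 < y0 + ε by linarith)
    obtain ⟨y, hy, hyA⟩ := hGA i a b ⟨y0, ⟨ha2, hb1⟩, hy0G⟩
    refine hyA (hsub ⟨hε' ?_, hy.2⟩)
    rw [Real.ball_eq_Ioo]
    exact ⟨ha1.trans hy.1.1, hy.1.2.trans hb2⟩
  · intro i V hV h hsub
    obtain ⟨x, hx, hxV⟩ := meetA V hV h
    obtain ⟨m, hm⟩ := ball_in V hV x hxV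
    obtain ⟨d, hd, _, hdist, hdH⟩ := hHA i m x hx
    exact hdH (hsub ⟨hm d hdist, subset_closure hd⟩)
  · intro i V hV h hsub
    obtain ⟨x, hx, hxV⟩ := meetA V hV h
    obtain ⟨m, hm⟩ := ball_in V hV x hxV
    obtain ⟨d, hd, hdD, hdist⟩ := hD i m x hx (hsub ⟨hxV, subset_closure hx⟩)
    exact ⟨d, ⟨hm d hdist, subset_closure hd⟩, hdD⟩


/-! ### Recursion along a well-order -/

theorem exists_rec {I : Type*} [LinearOrder I] [WellFoundedLT I] {X : Type*} [Inhabited X]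
    (Phi : I → (I → X) → X → Prop)
    (hloc : ∀ i (D D' : I → X) x, (∀ j, j < i → D j = D' j) → Phi i D x → Phi i D' x)
    (hex : ∀ i D, ∃ x, Phi i D x) : ∃ D : I → X, ∀ i, Phi i D (D i) := by
  classical
  let step : (i : I) → ((j : I) → j < i → X) → X := fun i D =>
    Classical.choose (hex i (fun j => if h : j < i then D j h else default))
  let D : I → X := WellFounded.fix (wellFounded_lt (α := I)) step
  refine ⟨D, fun i => ?_⟩
  have h1 : D i = step i (fun j _ => D j) := WellFounded.fix_eq _ _ _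
  have h2 : Phi i (fun j => if h : j < i then D j else default) (step i (fun j _ => D j)) :=
    Classical.choose_spec (hex i (fun j => if h : j < i then D j else default))
  rw [← h1] at h2
  refine hloc i _ _ _ ?_ h2
  intro j hj
  simp [hj]

lemma exists_bound' {ι : Type*} [Countable ι] (f : ι → Om) : ∃ a : Om, ∀ i, f i ≤ a := by
  rcases isEmpty_or_nonempty ι with h | h
  · exact ⟨Classical.arbitrary Om, fun i => (h.false i).elim⟩
  · obtain ⟨g, hg⟩ := exists_surjective_nat ι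
    obtain ⟨a, ha⟩ := exists_bound fun n => f (g n)
    refine ⟨a, fun i => ?_⟩
    obtain ⟨n, rfl⟩ := hg i
    exact (ha n).le

lemma countable_Iic' (a : Om) : (Iic a).Countable := by
  have h1 : (Iio a).Countable := Set.countable_coe_iff.1 (countable_Iio a)
  refine (h1.insert a).mono ?_
  intro x hx
  rcases eq_or_lt_of_le (mem_Iic.1 hx) with h | h
  · exact Or.inl h
  · exact Or.inr h

/-- A set of indices contained in an initial segment is countable. -/
lemma countable_of_le {S : Set Om} (a : Om) (h : ∀ α ∈ S, α ≤ a) : S.Countable :=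
  (countable_Iic' a).mono h

/-- The sets of the family. -/
def Good (F : Set ℝ) : Prop := IsClosed F ∧ F.Nonempty ∧ Preperfect F ∧ interior F = ∅

/-- The requirement for the set with index `ξ`. -/
def Req (e : Om → Set ℝ) (ξ : Om) (F : Om → Set ℝ) (x : Set ℝ) : Prop :=
  Good x ∧
  (∀ η, η < ξ → Good (F η) →
    (∀ V : Set ℝ, IsOpen V → (V ∩ F η).Nonempty → ¬ (V ∩ F η ⊆ x)) ∧
    (∀ V : Set ℝ, IsOpen V → (V ∩ x).Nonempty → ¬ (V ∩ x ⊆ F η))) ∧
  (∀ b, b < ξ → ∀ V : Set ℝ, IsOpen V → (V ∩ x).Nonempty → V ∩ x ⊆ closure (e b) →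
    (V ∩ x ∩ e b).Nonempty)

lemma exists_family (e : Om → Set ℝ) : ∃ F : Om → Set ℝ, ∀ ξ, Req e ξ F (F ξ) := by
  refine exists_rec (Req e) ?_ ?_
  · rintro ξ F F' x hF ⟨h1, h2, h3⟩
    refine ⟨h1, ?_, h3⟩
    intro η hη hg
    rw [← hF η hη] at hg ⊢
    exact h2 η hη hg
  · intro ξ F
    have hc := countable_Iio ξ
    let ι : Type := {η : {η : Om // η < ξ} // Good (F η.1)}
    obtain ⟨x, h1, h2, h3, h4, h5, h6⟩ := exists_next (ι := Option ι) (κ := Option ι)
      (μ := {η : Om // η < ξ})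
      (fun o => o.elim univ fun η => F η.1.1)
      (by
        rintro (_ | η)
        · exact PerfectSpace.univ_preperfect
        · exact η.2.2.2.1)
      (fun o => o.elim ∅ fun η => F η.1.1)
      (by
        rintro (_ | η)
        · exact isClosed_empty
        · exact η.2.1)
      (by
        rintro (_ | η)
        · exact interior_empty
        · exact η.2.2.2.2)
      (fun η => e η.1)
    refine ⟨x, ⟨h1, h2, h3, ?_⟩, ?_, ?_⟩
    · rw [← Set.not_nonempty_iff_eq_empty]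
      intro hne
      refine h4 none (interior x) isOpen_interior ?_ ?_
      · simpa using hne
      · exact (inter_subset_left.trans interior_subset)
    · intro η hη hg
      exact ⟨fun V hV h => h4 (some ⟨⟨η, hη⟩, hg⟩) V hV h,
        fun V hV h => h5 (some ⟨⟨η, hη⟩, hg⟩) V hV h⟩
    · intro b hb V hV h h'
      exact h6 ⟨b, hb⟩ V hV h h'

/-! ### The points -/

lemma exists_point (F : Set ℝ) (hF : IsClosed F) (hne : F.Nonempty) {ι : Type*} [Countable ι]
    (E : ι → Set ℝ) : ∃ x ∈ F, ∀ i, IsClosed (E i) → x ∈ E i →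
      ∃ V : Set ℝ, IsOpen V ∧ x ∈ V ∧ V ∩ F ⊆ E i := by
  classical
  have : CompleteSpace F := hF.completeSpace_coe
  have : Nonempty F := hne.to_subtype
  let W : ι → Set F := fun i => if IsClosed (E i) then (frontier ((↑) ⁻¹' E i : Set F))ᶜ else univ
  have h1 : ∀ i, IsOpen (W i) := by
    intro i
    by_cases h : IsClosed (E i)
    · simp only [W, h, if_true]
      exact isClosed_frontier.isOpen_compl
    · simp only [W, h, if_false]
      exact isOpen_univ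
  have h2 : ∀ i, Dense (W i) := by
    intro i
    by_cases h : IsClosed (E i)
    · simp only [W, h, if_true]
      rw [← interior_eq_empty_iff_dense_compl]
      exact interior_frontier (h.preimage continuous_subtype_val)
    · simp only [W, h, if_false]
      exact dense_univ
  obtain ⟨x, hx⟩ := (dense_iInter_of_isOpen h1 h2).nonempty
  refine ⟨x, x.2, fun i hi hxi => ?_⟩
  have h3 : x ∈ W i := mem_iInter.1 hx i
  simp only [W, hi, if_true] at h3
  have h4 : x ∈ interior ((↑) ⁻¹' E i : Set F) := by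
    by_contra h
    exact h3 ⟨subset_closure hxi, h⟩
  obtain ⟨U, hU, hUo, hxU⟩ := mem_interior.1 h4
  obtain ⟨V, hV, rfl⟩ := isOpen_induced_iff.1 hUo
  exact ⟨V, hV, hxU, fun y hy => hU (show (⟨y, hy.2⟩ : F) ∈ _ from hy.1)⟩

section Main

variable (e : Om → Set ℝ) (ζ : Om → Om) (F : Om → Set ℝ) (x : Om → ℝ)

/-- What the points satisfy. -/
def Pts : Prop := ∀ α, x α ∈ F (ζ α) ∧ ∀ β, β < α → IsClosed (e β) → x α ∈ e β →
  ∃ V : Set ℝ, IsOpen V ∧ x α ∈ V ∧ V ∩ F (ζ α) ⊆ e β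

variable {e ζ F x}

lemma exists_pts (hF : ∀ ξ, Req e ξ F (F ξ)) : ∃ x : Om → ℝ, Pts e ζ F x := by
  have h : ∀ α, ∃ y : ℝ, y ∈ F (ζ α) ∧ ∀ β, β < α → IsClosed (e β) → y ∈ e β →
      ∃ V : Set ℝ, IsOpen V ∧ y ∈ V ∧ V ∩ F (ζ α) ⊆ e β := by
    intro α
    have hc := countable_Iio α
    obtain ⟨y, hy, h⟩ := exists_point (F (ζ α)) (hF _).1.1 (hF _).1.2.1
      (fun β : {β : Om // β < α} => e β.1)
    exact ⟨y, hy, fun β hβ => h ⟨β, hβ⟩⟩
  choose x hx using h
  exact ⟨x, hx⟩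

/-- Any closed set contains almost every point only locally. -/
lemma closed_bound (he : ∀ S, MeasurableSet S → ∃ b, e b = S) (hx : Pts e ζ F x)
    {S : Set ℝ} (hS : IsClosed S) : ∃ a : Om, ∀ α, a < α → x α ∈ S →
      ∃ V : Set ℝ, IsOpen V ∧ x α ∈ V ∧ V ∩ F (ζ α) ⊆ S := by
  obtain ⟨b, rfl⟩ := he S hS.measurableSet
  exact ⟨b, fun α hα h => (hx α).2 b hα hS h⟩

lemma fibre_uncountable (he : ∀ S, MeasurableSet S → ∃ b, e b = S)
    (hF : ∀ ξ, Req e ξ F (F ξ)) (hx : Pts e ζ F x) (hζ : ∀ ξ, ¬ {α | ζ α = ξ}.Countable) (ξ : Om) :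
    ¬ (range x ∩ F ξ).Countable := by
  intro hc
  have hc' : (x '' {α | ζ α = ξ}).Countable := by
    refine hc.mono ?_
    rintro _ ⟨α, hα, rfl⟩
    refine ⟨mem_range_self α, ?_⟩
    have := (hx α).1
    rwa [show ζ α = ξ from hα] at this
  have := hc'.to_subtype
  choose a ha using fun y : (x '' {α | ζ α = ξ}) =>
    closed_bound he hx (isClosed_singleton (x := y.1))
  obtain ⟨γ, hγ⟩ := exists_bound' a
  apply hζ ξ
  refine countable_of_le γ fun α hα => ?_
  by_contra hlt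
  have hlt : γ < α := not_le.1 hlt
  have hmem : x α ∈ x '' {α | ζ α = ξ} := mem_image_of_mem x hα
  obtain ⟨V, hV, hxV, hVF⟩ := ha ⟨x α, hmem⟩ α ((hγ _).trans_lt hlt) rfl
  obtain ⟨y, hy, hne⟩ := accPt_iff_nhds.1 ((hF (ζ α)).1.2.2.1 _ (hx α).1) V (hV.mem_nhds hxV)
  exact hne (hVF hy)

lemma off_countable (he : ∀ S, MeasurableSet S → ∃ b, e b = S)
    (hF : ∀ ξ, Req e ξ F (F ξ)) (hx : Pts e ζ F x) (ξ : Om) :
    {α | ζ α ≠ ξ ∧ x α ∈ F ξ}.Countable := by
  obtain ⟨a, ha⟩ := closed_bound he hx (hF ξ).1.1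
  refine countable_of_le a fun α hα => ?_
  by_contra hlt
  obtain ⟨V, hV, hxV, hVF⟩ := ha α (not_le.1 hlt) hα.2
  have hne : (V ∩ F (ζ α)).Nonempty := ⟨x α, hxV, (hx α).1⟩
  rcases lt_or_gt_of_ne hα.1 with h | h
  · exact ((hF ξ).2.1 (ζ α) h (hF _).1).1 V hV hne hVF
  · exact ((hF (ζ α)).2.1 ξ h (hF _).1).2 V hV hne hVF

lemma two_countable (he : ∀ S, MeasurableSet S → ∃ b, e b = S)
    (hF : ∀ ξ, Req e ξ F (F ξ)) (hx : Pts e ζ F x) {ξ η : Om} (h : ξ ≠ η) :
    (range x ∩ F ξ ∩ F η).Countable := by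
  refine ((((off_countable he hF hx ξ).union (off_countable he hF hx η))).image x).mono ?_
  rintro _ ⟨⟨⟨α, rfl⟩, h1⟩, h2⟩
  refine ⟨α, ?_, rfl⟩
  by_cases hα : ζ α = ξ
  · exact Or.inr ⟨by rw [hα]; exact h, h2⟩
  · exact Or.inl ⟨hα, h1⟩

/-- a countable dense subset of a set of reals -/
lemma exists_dense (Y : Set ℝ) : ∃ D ⊆ Y, D.Countable ∧ Y ⊆ closure D := by
  obtain ⟨t, ht, htc, h⟩ := TopologicalSpace.IsSeparable.of_separableSpace Y |>.exists_countable_dense_subset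
  exact ⟨t, ht, htc, h⟩

lemma hereditary (he : ∀ S, MeasurableSet S → ∃ b, e b = S)
    (hF : ∀ ξ, Req e ξ F (F ξ)) (hx : Pts e ζ F x) (Y : Set ℝ) (hY : Y ⊆ range x) :
    ∃ C : Set ℝ, C ⊆ Y ∧ C.Countable ∧
      ∀ U : Set ℝ, IsOpen U → C ⊆ U → (Y \ U).Countable := by
  obtain ⟨D0, hD0, hD0c, hD0d⟩ := exists_dense Y
  obtain ⟨b, hb⟩ := he D0 hD0c.measurableSet
  choose D hD hDc hDd using fun ξ => exists_dense (Y ∩ F ξ)
  refine ⟨D0 ∪ ⋃ ξ ∈ Iic b, D ξ, ?_, ?_, ?_⟩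
  · refine union_subset hD0 ?_
    exact iUnion₂_subset fun ξ _ => (hD ξ).trans inter_subset_left
  · exact hD0c.union ((countable_Iic' b).biUnion fun ξ _ => hDc ξ)
  · intro U hU hCU
    obtain ⟨a1, ha1⟩ := closed_bound he hx (isClosed_closure (s := D0))
    obtain ⟨a2, ha2⟩ := closed_bound he hx hU.isClosed_compl
    refine ((countable_Iic' (max a1 a2)).image x).mono ?_
    rintro y ⟨hy, hyU⟩
    obtain ⟨α, rfl⟩ := hY hy
    refine ⟨α, ?_, rfl⟩
    by_contra hlt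
    have hlt : max a1 a2 < α := not_le.1 hlt
    obtain ⟨V, hV, hxV, hVF⟩ := ha1 α ((le_max_left _ _).trans_lt hlt) (hD0d hy)
    obtain ⟨V', hV', hxV', hVF'⟩ := ha2 α ((le_max_right _ _).trans_lt hlt) hyU
    by_cases hb' : ζ α ≤ b
    · have h1 : x α ∈ closure (D (ζ α)) := hDd _ ⟨hy, (hx α).1⟩
      obtain ⟨d, hd, hd'⟩ := mem_closure_iff.1 h1 V' hV' hxV'
      exact hVF' ⟨hd, (hD _ hd').2⟩ (hCU (Or.inr (mem_biUnion (mem_Iic.2 hb') hd')))
    · obtain ⟨d, ⟨⟨hd1, hd2⟩, hd3⟩, hd4⟩ := (hF (ζ α)).2.2 b (not_le.1 hb') (V ∩ V') (hV.inter hV')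
        ⟨x α, ⟨hxV, hxV'⟩, (hx α).1⟩ (by
          rw [hb]
          exact fun z hz => hVF ⟨hz.1.1, hz.2⟩)
      rw [hb] at hd4
      exact hVF' ⟨hd2, hd3⟩ (hCU (Or.inl hd4))

lemma not_image (he : ∀ S, MeasurableSet S → ∃ b, e b = S)
    (hF : ∀ ξ, Req e ξ F (F ξ)) (hx : Pts e ζ F x) (hζ : ∀ ξ, ¬ {α | ζ α = ξ}.Countable)
    (Z : Set ℝ) (hZ : ∀ Y : Set Z, IsNowhereDense Y → Y.Countable) (f : ℝ → ℝ)
    (hf : ContinuousOn f Z) (hfZ : f '' Z = range x) : False := by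
  classical
  let g : Z → ℝ := Z.domRestrict f
  have hg : Continuous g := continuousOn_iff_continuous_domRestrict.1 hf
  have hgr : range g = range x := by
    rw [← hfZ]
    exact range_domRestrict f Z
  have key : ∀ ξ, ∃ B ∈ TopologicalSpace.countableBasis Z, B ⊆ g ⁻¹' F ξ ∧
      ¬ (g '' B).Countable := by
    intro ξ
    have hC : IsClosed (g ⁻¹' F ξ) := (hF ξ).1.1.preimage hg
    have hfr : (frontier (g ⁻¹' F ξ)).Countable := by
      refine hZ _ ?_
      rw [isClosed_frontier.isNowhereDense_iff]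
      exact interior_frontier hC
    by_contra hcon
    push Not at hcon
    apply fibre_uncountable he hF hx hζ ξ
    have h1 : (⋃ B ∈ {B ∈ TopologicalSpace.countableBasis Z | B ⊆ g ⁻¹' F ξ}, g '' B).Countable := by
      refine ((TopologicalSpace.countable_countableBasis Z).mono (sep_subset _ _)).biUnion ?_
      intro B hB
      exact hcon B hB.1 hB.2
    refine (h1.union (hfr.image g)).mono ?_
    rintro _ ⟨⟨α, rfl⟩, h2⟩
    have h3 : x α ∈ range g := by rw [hgr]; exact mem_range_self α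
    obtain ⟨z, hz⟩ := h3
    have h4 : z ∈ g ⁻¹' F ξ := by
      rw [mem_preimage, hz]
      exact h2
    by_cases h5 : z ∈ interior (g ⁻¹' F ξ)
    · left
      obtain ⟨B, hB, hzB, hBs⟩ := (TopologicalSpace.isBasis_countableBasis Z).exists_subset_of_mem_open
        h5 isOpen_interior
      exact mem_biUnion (show B ∈ {B ∈ TopologicalSpace.countableBasis Z | B ⊆ g ⁻¹' F ξ} from
        ⟨hB, hBs.trans interior_subset⟩) ⟨z, hzB, hz⟩
    · right
      exact ⟨z, ⟨subset_closure h4, h5⟩, hz⟩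
  choose B hB hBs hBc using key
  have hinj : Function.Injective B := by
    intro ξ η h
    by_contra hne
    apply hBc ξ
    refine (two_countable he hF hx hne).mono ?_
    rintro _ ⟨z, hz, rfl⟩
    refine ⟨⟨?_, hBs ξ hz⟩, hBs η (h ▸ hz)⟩
    rw [← hgr]
    exact mem_range_self z
  have hOm : ¬ (univ : Set Om).Countable := by
    intro h
    exact hζ (Classical.arbitrary Om) (h.mono (subset_univ _))
  apply hOm
  have h1 : (range B).Countable := (TopologicalSpace.countable_countableBasis Z).mono (by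
    rintro _ ⟨ξ, rfl⟩
    exact hB ξ)
  rw [← image_univ] at h1
  exact (countable_of_injective_of_countable_image hinj.injOn h1)

end Main


/-! ### The continuum hypothesis -/

lemma exists_enum (hCH : Cardinal.continuum.{0} = Cardinal.aleph 1) :
    ∃ e : Om → Set ℝ, ∀ S, MeasurableSet S → ∃ b, e b = S := by
  have h1 : Cardinal.mk {S : Set ℝ | MeasurableSet S} ≤ Cardinal.continuum := by
    rw [BorelSpace.measurable_eq (α := ℝ), Real.borel_eq_generateFrom_Ioo_rat]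
    refine MeasurableSpace.cardinal_measurableSet_le_continuum ?_
    refine le_trans ?_ Cardinal.aleph0_le_continuum
    rw [Cardinal.mk_le_aleph0_iff, Set.countable_coe_iff]
    refine countable_iUnion fun a => countable_iUnion fun b => countable_iUnion fun _ => ?_
    exact countable_singleton _
  have h2 : Cardinal.mk Om = Cardinal.aleph 1 := by simp
  rw [hCH, ← h2] at h1
  obtain ⟨⟨i, hi⟩⟩ := Cardinal.le_def _ _ |>.1 h1
  have : Nonempty {S : Set ℝ | MeasurableSet S} := ⟨⟨∅, by simp⟩⟩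
  refine ⟨fun b => (Function.invFun i b).1, fun S hS => ⟨i ⟨S, hS⟩, ?_⟩⟩
  change (Function.invFun i (i ⟨S, hS⟩)).1 = S
  rw [Function.leftInverse_invFun hi]

lemma exists_zeta : ∃ ζ : Om → Om, ∀ ξ, ¬ {α | ζ α = ξ}.Countable := by
  have h2 : Cardinal.mk Om = Cardinal.aleph 1 := by simp
  have h3 : Cardinal.mk (Om × Om) = Cardinal.mk Om := by
    rw [Cardinal.mk_prod, Cardinal.lift_id, Cardinal.mul_eq_self]
    rw [h2]
    exact Cardinal.aleph0_le_aleph 1
  obtain ⟨φ⟩ := Cardinal.eq.1 h3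
  refine ⟨fun α => (φ.symm α).1, fun ξ hc => ?_⟩
  have h4 : (univ : Set Om).Countable := by
    have h5 : ((fun β : Om => φ (ξ, β)) ⁻¹' {α | (φ.symm α).1 = ξ}).Countable :=
      hc.preimage (fun a b h => by simpa using φ.injective h)
    refine h5.mono fun β _ => ?_
    simp
  have h5 : Cardinal.mk Om ≤ Cardinal.aleph0 := by
    rw [Cardinal.mk_le_aleph0_iff]
    exact countable_univ_iff.1 h4
  rw [h2] at h5
  exact absurd h5 (not_le.2 Cardinal.aleph0_lt_aleph_one)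

theorem ch_not (hCH : Cardinal.continuum.{0} = Cardinal.aleph 1) : ¬ BrownCox := by
  intro h
  obtain ⟨e, he⟩ := exists_enum hCH
  obtain ⟨ζ, hζ⟩ := exists_zeta
  obtain ⟨F, hF⟩ := exists_family e
  obtain ⟨x, hx⟩ := exists_pts (ζ := ζ) hF
  obtain ⟨Z, hZ, f, hf, hfZ⟩ := h (range x) fun Y hY => hereditary he hF hx Y hY
  exact not_image he hF hx hζ Z hZ f hf hfZ

/-! ### Large bounding number -/

theorem bounding_countable (hb : ∀ S : Set (ℕ → ℕ), Cardinal.mk S ≤ Cardinal.aleph 1 →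
      ∃ h : ℕ → ℕ, ∀ g ∈ S, ∀ᶠ n in atTop, g n ≤ h n)
    (X : Set ℝ) (hX : ∃ C : Set ℝ, C ⊆ X ∧ C.Countable ∧
        ∀ U : Set ℝ, IsOpen U → C ⊆ U → (X \ U).Countable) : X.Countable := by
  classical
  obtain ⟨C, hCX, hC, hCU⟩ := hX
  rcases C.eq_empty_or_nonempty with rfl | hne
  · simpa using hCU ∅ isOpen_empty (empty_subset _)
  obtain ⟨d, rfl⟩ := hC.exists_eq_range hne
  by_contra hXc
  have h1 : ¬ (X \ range d).Countable := by
    intro h
    exact hXc ((h.union (countable_range d)).mono (by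
      intro y hy
      by_cases h : y ∈ range d
      · exact Or.inr h
      · exact Or.inl ⟨hy, h⟩))
  have h2 : Cardinal.aleph 1 ≤ Cardinal.mk ↥(X \ range d) := by
    have h3 : Cardinal.aleph0 < Cardinal.mk ↥(X \ range d) := by
      rw [← not_le, Cardinal.mk_le_aleph0_iff, Set.countable_coe_iff]
      exact h1
    rw [← Cardinal.succ_aleph0]
    exact Order.succ_le_of_lt h3
  obtain ⟨Y, hY, hYc⟩ := Cardinal.le_mk_iff_exists_subset.1 h2
  have h4 : ∀ y : ℝ, ∀ n : ℕ, ∃ k : ℕ, y ∈ Y → 1 / ((k : ℝ) + 1) < dist y (d n) := by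
    intro y n
    by_cases hy : y ∈ Y
    · have h5 : 0 < dist y (d n) := dist_pos.2 (by
        rintro rfl
        exact (hY hy).2 (mem_range_self n))
      obtain ⟨k, hk⟩ := exists_nat_one_div_lt h5
      exact ⟨k, fun _ => hk⟩
    · exact ⟨0, fun h => absurd h hy⟩
  choose g hg using h4
  obtain ⟨h, hh⟩ := hb (g '' Y) (Cardinal.mk_image_le.trans hYc.le)
  let U : ℕ → Set ℝ := fun m => ⋃ n, ball (d n) (1 / ((max (h n) m : ℕ) + 1 : ℝ))
  have hU : ∀ m, (X \ U m).Countable := by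
    intro m
    refine hCU _ (isOpen_iUnion fun n => isOpen_ball) ?_
    rintro _ ⟨n, rfl⟩
    exact mem_iUnion.2 ⟨n, mem_ball_self (by positivity)⟩
  have hYcount : Y.Countable := by
    refine (countable_iUnion hU).mono ?_
    intro y hy
    obtain ⟨N, hN⟩ := eventually_atTop.1 (hh _ (mem_image_of_mem g hy))
    obtain ⟨m, hm⟩ : ∃ m, ∀ n, n < N → g y n ≤ m := by
      refine ⟨∑ n ∈ Finset.range N, g y n, fun n hn => ?_⟩
      exact Finset.single_le_sum (f := fun n => g y n) (fun _ _ => Nat.zero_le _)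
        (Finset.mem_range.2 hn)
    refine mem_iUnion.2 ⟨m, (hY hy).1, ?_⟩
    intro hyU
    obtain ⟨n, hn⟩ := mem_iUnion.1 hyU
    have h6 : g y n ≤ max (h n) m := by
      rcases lt_or_ge n N with hlt | hge
      · exact (hm n hlt).trans (le_max_right _ _)
      · exact (hN n hge).trans (le_max_left _ _)
    have h7 := hg y n hy
    have h8 : 1 / (((max (h n) m : ℕ) : ℝ) + 1) ≤ 1 / ((g y n : ℝ) + 1) := by
      apply one_div_le_one_div_of_le
      · positivity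
      · have : (g y n : ℝ) ≤ ((max (h n) m : ℕ) : ℝ) := by exact_mod_cast h6
        linarith
    have h9 : dist y (d n) < 1 / (((max (h n) m : ℕ) : ℝ) + 1) := hn
    linarith
  have h10 : Cardinal.mk Y ≤ Cardinal.aleph0 := by
    rw [Cardinal.mk_le_aleph0_iff, Set.countable_coe_iff]
    exact hYcount
  rw [hYc] at h10
  exact absurd h10 (not_le.2 Cardinal.aleph0_lt_aleph_one)

theorem bounding_yes (hb : ∀ S : Set (ℕ → ℕ), Cardinal.mk S ≤ Cardinal.aleph 1 →
      ∃ h : ℕ → ℕ, ∀ g ∈ S, ∀ᶠ n in atTop, g n ≤ h n) : BrownCox := by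
  intro X hX
  have h1 : X.Countable := bounding_countable hb X (hX X subset_rfl)
  refine ⟨X, fun Y _ => ?_, id, continuousOn_id, image_id X⟩
  have := h1.to_subtype
  exact Set.to_countable Y

/-- (A) There is a forcing notion which preserves `ω₁` and forces the continuum hypothesis.
(B) Under the continuum hypothesis the statement of Q1 is false. (C) If every family of at most
`ℵ₁` functions is bounded modulo finite, then the statement of Q1 is true. -/
theorem result :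
    (∃ (P : Type) (_ : Preorder P), Nonempty P ∧ ∀ p : P,
      p ∈ Pool.Agent.Helper292.ForceCH.OmegaOnePreserved P ∧
      p ∈ Pool.Agent.Helper292.ForceCH.CHHolds P) ∧
    (Cardinal.continuum.{0} = Cardinal.aleph 1 → ¬ BrownCox) ∧
    ((∀ S : Set (ℕ → ℕ), Cardinal.mk S ≤ Cardinal.aleph 1 →
      ∃ h : ℕ → ℕ, ∀ g ∈ S, ∀ᶠ n in atTop, g n ≤ h n) → BrownCox) := by
  refine ⟨?_, ch_not, bounding_yes⟩
  obtain ⟨P, hP, hne, h⟩ := Pool.Agent.Helper292.ForceCH.exists_forcing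
  exact ⟨P, hP, hne, fun p => ⟨(h p).1, (h p).2.2⟩⟩

end Pool.Agent.Results.MP_da5f1d_gt.Independent
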